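import Mathlib
import Pool.Agent.P.MP_a0a898_co.Defs
import Pool.Agent.P.MP_a0a898_co.Main

set_option autoImplicit false

namespace Pool.Agent.Results.MP_a0a898_co.Counterexample

theorem result :
    Pool.Agent.P.MP_a0a898_co.MoverWins
      (SimpleGraph.boxProd (SimpleGraph.pathGraph 2) (SimpleGraph.pathGraph 7)) ∅ :=
  Pool.Agent.P.MP_a0a898_co.main

end Pool.Agent.Results.MP_a0a898_co.Counterexample
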