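import Mathlib
import Pool.Agent.P.MP_a0a898_co.Defs
import Pool.Agent.P.MP_a0a898_co.Inst

set_option autoImplicit false

namespace Pool.Agent.Results.MP_a0a898_co.LargeGrids

theorem result (k m : ℕ) (hk : 2 ≤ k) (hm : 2 ≤ m) (hev : Even (k * m)) (hk4 : k ≠ 4) (hm4 : m ≠ 4)
    (hkm : 200 ≤ k + m) (v : Fin k × Fin m) :
    ¬ Pool.Agent.P.MP_a0a898_co.Dominating
        (SimpleGraph.boxProd (SimpleGraph.pathGraph k) (SimpleGraph.pathGraph m)) {v} ∧
      Pool.Agent.P.MP_a0a898_co.MoverWins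
        (SimpleGraph.boxProd (SimpleGraph.pathGraph k) (SimpleGraph.pathGraph m)) {v} :=
  Pool.Agent.P.MP_a0a898_co.Race.large k m hk hm hev hk4 hm4 hkm v

end Pool.Agent.Results.MP_a0a898_co.LargeGrids
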